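import Mathlib

set_option autoImplicit false
set_option maxHeartbeats 400000

namespace Pool.Agent.Results.MP_9b03f8_al.LieLocAut

open NormedSpace Filter Topology

def Aut {V : Type} (m : V → V → V) (g : V → V) : Prop :=
  Function.Bijective g ∧ ∀ x y, g (m x y) = m (g x) (g y)

def Leib {V : Type} [Add V] (m : V → V → V) (D : V → V) : Prop :=
  ∀ x y, D (m x y) = m (D x) y + m x (D y)

section stat
variable (K : Type) {V : Type} [Field K] [AddCommGroup V] [Module K V]

def Bil (m : V → V → V) : Prop := (∀ x, IsLinearMap K (m x)) ∧ ∀ y, IsLinearMap K (fun x => m x y)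

def LocAut (m : V → V → V) (T : V → V) : Prop :=
  ∀ x, ∃ g : V → V, IsLinearMap K g ∧ Aut m g ∧ T x = g x

def LocDer (m : V → V → V) (T : V → V) : Prop :=
  ∀ x, ∃ D : V → V, IsLinearMap K D ∧ Leib m D ∧ T x = D x

end stat

noncomputable def flow {K V : Type} [RCLike K] [NormedAddCommGroup V] [NormedSpace K V]
    (X : V →L[K] V) (t : ℝ) : V →L[K] V := exp ((t : K) • X)

section defs
variable {K V : Type} [RCLike K] [NormedAddCommGroup V] [NormedSpace K V]

def IsAut (m : V →L[K] V →L[K] V) (g : V →L[K] V) : Prop :=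
  Function.Bijective g ∧ ∀ x y, g (m x y) = m (g x) (g y)

def IsDer (m : V →L[K] V →L[K] V) (D : V →L[K] V) : Prop :=
  ∀ x y, D (m x y) = m (D x) y + m x (D y)

def IsLocAut (m : V →L[K] V →L[K] V) (T : V →L[K] V) : Prop := ∀ x, ∃ g, IsAut m g ∧ T x = g x

def IsLocDer (m : V →L[K] V →L[K] V) (T : V →L[K] V) : Prop := ∀ x, ∃ D, IsDer m D ∧ T x = D x

def Der (m : V →L[K] V →L[K] V) : Submodule K (V →L[K] V) where
  carrier := {D | IsDer m D}
  zero_mem' := by simp [IsDer]
  add_mem' := fun {D E} hD hE x y => by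
    simp only [ContinuousLinearMap.add_apply, hD x y, hE x y, map_add]; abel
  smul_mem' := fun c D hD x y => by simp [hD x y]

noncomputable def ev (m : V →L[K] V →L[K] V) (x : V) : Der m →ₗ[K] V :=
  (ContinuousLinearMap.apply K V x).toLinearMap ∘ₗ (Der m).subtype

noncomputable def orb (m : V →L[K] V →L[K] V) (x : V) : Submodule K V := LinearMap.range (ev m x)

variable {m : V →L[K] V →L[K] V}

lemma mem_orb {x v : V} : v ∈ orb m x ↔ ∃ D, IsDer m D ∧ v = D x :=
  ⟨fun ⟨D, h⟩ => ⟨D.1, D.2, h.symm⟩, fun ⟨D, h1, h2⟩ => ⟨⟨D, h1⟩, h2.symm⟩⟩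

lemma IsAut.mul {g h : V →L[K] V} (hg : IsAut m g) (hh : IsAut m h) : IsAut m (g * h) :=
  ⟨hg.1.comp hh.1, fun x y => by simp [hg.2, hh.2]⟩

variable [FiniteDimensional K V]

lemma IsAut.inv {g : V →L[K] V} (hg : IsAut m g) :
    ∃ h, IsAut m h ∧ (∀ x, g (h x) = x) ∧ ∀ x, h (g x) = x := by
  let e := (LinearEquiv.ofBijective g.toLinearMap hg.1).toContinuousLinearEquiv
  have h1 : ∀ x, g (e.symm x) = x := e.apply_symm_apply
  exact ⟨e.symm, ⟨e.symm.bijective, fun x y => hg.1.1 (by simp [hg.2, h1])⟩, h1, e.symm_apply_apply⟩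

lemma IsAut.orb {g : V →L[K] V} (hg : IsAut m g) {x v : V} (hv : v ∈ orb m x) :
    g v ∈ orb m (g x) := by
  obtain ⟨h, hh, h1, h2⟩ := hg.inv
  obtain ⟨D, hD, rfl⟩ := mem_orb.1 hv
  exact mem_orb.2 ⟨g * D * h, fun a b => by simp [hh.2, hD _ _, hg.2, h1], by simp [h2]⟩

lemma IsAut.rank {g : V →L[K] V} (hg : IsAut m g) (x : V) :
    Module.finrank K (LieLocAut.orb m (g x)) ≤ Module.finrank K (LieLocAut.orb m x) := by
  obtain ⟨h, hh, h1, h2⟩ := hg.inv
  refine LinearMap.finrank_le_finrank_of_injective (f := h.toLinearMap.restrict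
    (p := LieLocAut.orb m (g x)) fun v hv => by simpa [h2] using hh.orb hv) fun a b hab => ?_
  exact Subtype.ext (hh.1.1 (congrArg Subtype.val hab))

lemma sect (m : V →L[K] V →L[K] V) (x : V) : ∃ σ : V →L[K] V →L[K] V,
    (∀ v, IsDer m (σ v)) ∧ ∀ v ∈ orb m x, σ v x = v := by
  obtain ⟨s, hs⟩ := (ev m x).rangeRestrict.exists_rightInverse_of_surjective
    (ev m x).range_rangeRestrict
  obtain ⟨p, hp⟩ := (orb m x).subtype.exists_leftInverse_of_injective (orb m x).ker_subtype
  refine ⟨LinearMap.toContinuousLinearMap ((Der m).subtype ∘ₗ s ∘ₗ p), fun v => (s (p v)).2,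
    fun v hv => ?_⟩
  have h1 : p v = ⟨v, hv⟩ := LinearMap.congr_fun hp ⟨v, hv⟩
  have h2 := congrArg Subtype.val (LinearMap.congr_fun hs ⟨v, hv⟩)
  change (s (p v)).1 x = v
  rw [h1]; exact h2

lemma small {ε : ℝ} (hε : 0 < ε) : ∃ δ > 0, ∀ E : V →L[K] V, ‖E‖ < δ →
    ∀ s ∈ Metric.closedBall (0 : K) 1, ‖exp (s • E) - 1‖ ≤ ε ∧ ‖exp (s • -E) - 1‖ ≤ ε := by
  have : CompleteSpace V := FiniteDimensional.complete K V
  have h := (hasStrictFDerivAt_exp_zero (𝕂 := K) (𝔸 := V →L[K] V)).continuousAt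
  obtain ⟨δ, hδ, h⟩ := Metric.continuousAt_iff.1 h ε hε
  have k : ∀ E : V →L[K] V, ‖E‖ < δ → ∀ s ∈ Metric.closedBall (0 : K) 1, ‖exp (s • E) - 1‖ ≤ ε :=
    fun E hE s hs => by
      have := h (x := s • E) (by
        rw [dist_zero_right, norm_smul]
        exact (mul_le_of_le_one_left (norm_nonneg _) (by simpa using hs)).trans_lt hE)
      rw [exp_zero, dist_eq_norm] at this
      exact this.le
  exact ⟨δ, hδ, fun E hE s hs => ⟨k E hE s hs, k _ (by simpa using hE) s hs⟩⟩

lemma exp_add' {A B : V →L[K] V} (h : Commute A B) : exp (A + B) = exp A * exp B := by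
  have : CompleteSpace V := FiniteDimensional.complete K V
  let _ : NormedAlgebra ℚ (V →L[K] V) := NormedAlgebra.restrictScalars ℚ K _
  exact exp_add_of_commute h

omit [FiniteDimensional K V] in
lemma mv {f f' : K → V} {C : ℝ} (h : ∀ s, HasDerivAt f (f' s) s)
    (hb : ∀ s ∈ Metric.closedBall (0 : K) 1, ‖f' s‖ ≤ C) : ‖f 1 - f 0‖ ≤ C := by
  simpa using (convex_closedBall (0 : K) 1).norm_image_sub_le_of_norm_hasDerivWithin_le
    (fun s _ => (h s).hasDerivWithinAt) hb (x := 0) (y := 1) (by simp) (by simp)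

lemma est {ε : ℝ} {E : V →L[K] V} (h : ∀ s ∈ Metric.closedBall (0 : K) 1, ‖exp (s • E) - 1‖ ≤ ε)
    (z : V) : ‖exp E z - z - E z‖ ≤ ε * ‖E z‖ := by
  have : CompleteSpace V := FiniteDimensional.complete K V
  have := mv (f := fun s : K => exp (s • E) z - s • E z) (f' := fun s => (exp (s • E) - 1) (E z))
    (fun s => by
      refine (((hasDerivAt_exp_smul_const E s).clm_apply (hasDerivAt_const s z)).sub
        ((hasDerivAt_id s).smul_const (E z))).congr_deriv ?_
      simp)
    (fun s hs => (ContinuousLinearMap.le_of_opNorm_le _ (h s hs) _))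
  simpa [sub_right_comm] using this

lemma der_of {E : V →L[K] V} (h : ∀ s ∈ Metric.closedBall (0 : K) 1,
    ‖exp (s • E) - 1‖ ≤ 1 / 10 ∧ ‖exp (s • -E) - 1‖ ≤ 1 / 10) (hE : IsAut m (exp E)) :
    IsDer m E := by
  have : CompleteSpace V := FiniteDimensional.complete K V
  let B : V →L[K] V →L[K] V := (ContinuousLinearMap.compL K V V V E).comp m - m.comp E -
    (m.flip.comp E).flip
  have hB : ∀ a b, B a b = E (m a b) - m (E a) b - m a (E b) := fun a b => rfl
  have key : ∀ a b, ‖B a b‖ ≤ ‖B‖ / 2 * ‖a‖ * ‖b‖ := fun a b => by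
    have d : ∀ u (s : K), HasDerivAt (fun s : K => exp (s • E) u) (E (exp (s • E) u)) s :=
      fun u s => by simpa using (hasDerivAt_exp_smul_const' E s).clm_apply (hasDerivAt_const s u)
    have := mv (f := fun s : K => exp (s • -E) (m (exp (s • E) a) (exp (s • E) b)) + s • B a b)
      (f' := fun s => B a b - exp (s • -E) (B (exp (s • E) a) (exp (s • E) b)))
      (C := ‖B‖ / 2 * ‖a‖ * ‖b‖) (fun s => by
        refine (((hasDerivAt_exp_smul_const (-E) s).clm_apply
          ((m.hasFDerivAt.comp_hasDerivAt s (d a s)).clm_apply (d b s))).add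
          ((hasDerivAt_id s).smul_const (B a b))).congr_deriv ?_
        simp [hB]; abel) (fun s hs => by
        obtain ⟨h1, h2⟩ := h s hs
        generalize exp (s • E) = P at h1 ⊢
        generalize exp (s • -E) = U at h2 ⊢
        have e : B a b - U (B (P a) (P b)) =
            -((U - 1) (B (P a) (P b)) + B ((P - 1) a) (P b) + B a ((P - 1) b)) := by simp
        have n1 : ∀ u, ‖(P - 1) u‖ ≤ 1 / 10 * ‖u‖ := ContinuousLinearMap.le_of_opNorm_le _ h1
        have n2 : ∀ u, ‖P u‖ ≤ 11 / 10 * ‖u‖ := fun u => by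
          have := norm_add_le ((P - 1) u) u
          have := n1 u
          simp only [ContinuousLinearMap.sub_apply, ContinuousLinearMap.one_apply,
            sub_add_cancel] at *
          linarith
        have m1 : ‖(U - 1) (B (P a) (P b))‖ ≤ 1 / 10 * (‖B‖ * (11 / 10 * ‖a‖) * (11 / 10 * ‖b‖)) :=
          (ContinuousLinearMap.le_of_opNorm_le _ h2 _).trans (by
            gcongr; exact (B.le_opNorm₂ _ _).trans (by gcongr <;> apply n2))
        have m2 : ‖B ((P - 1) a) (P b)‖ ≤ ‖B‖ * (1 / 10 * ‖a‖) * (11 / 10 * ‖b‖) :=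
          (B.le_opNorm₂ _ _).trans (by gcongr; exacts [n1 _, n2 _])
        have m3 : ‖B a ((P - 1) b)‖ ≤ ‖B‖ * ‖a‖ * (1 / 10 * ‖b‖) :=
          (B.le_opNorm₂ _ _).trans (by gcongr; exact n1 _)
        rw [e, norm_neg]
        have : 0 ≤ ‖B‖ * ‖a‖ * ‖b‖ := by positivity
        nlinarith [norm_add₃_le (a := (U - 1) (B (P a) (P b))) (b := B ((P - 1) a) (P b))
          (c := B a ((P - 1) b))])
    have e : exp (-E) * exp E = 1 := by
      rw [← exp_add' (Commute.refl E).neg_left, neg_add_cancel, exp_zero]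
    have e' : ∀ u, exp (-E) (exp E u) = u := fun u => congrArg (· u) e
    simpa [← hE.2, e'] using this
  have : ‖B‖ ≤ ‖B‖ / 2 := B.opNorm_le_bound₂ (by positivity) key
  have h0' : ‖B‖ ≤ 0 := by linarith [norm_nonneg B]
  have h0 : B = 0 := (ContinuousLinearMap.opNorm_zero_iff B).1 (le_antisymm h0' (norm_nonneg B))
  intro a b
  have := hB a b
  rw [h0, sub_sub, eq_comm, sub_eq_iff_eq_add] at this
  simpa using this

lemma tangent {ι : Type} {l : Filter ι} [l.NeBot] {k : ι → V →L[K] V} {c : ι → K} {z v : V}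
    (hk : ∀ i, IsAut m (k i)) (h1 : Tendsto k l (𝓝 1))
    (h2 : Tendsto (fun i => c i • (k i z - z)) l (𝓝 v)) : v ∈ orb m z := by
  have : CompleteSpace V := FiniteDimensional.complete K V
  rw [← SetLike.mem_coe, ← (orb m z).closed_of_finiteDimensional.closure_eq, Metric.mem_closure_iff]
  intro η hη
  have hN : 0 < ‖v‖ + 1 := by positivity
  obtain ⟨ε, hε, e1, e2⟩ : ∃ ε > 0, ε ≤ 1 / 10 ∧ ε * (‖v‖ + 1) ≤ η / 4 :=
    ⟨min (1 / 10) (η / 4 / (‖v‖ + 1)), by positivity, min_le_left _ _,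
      (le_div_iff₀ hN).1 (min_le_right _ _)⟩
  obtain ⟨δ, hδ, hs⟩ := small (K := K) (V := V) hε
  have hm : exp '' Metric.ball (0 : V →L[K] V) δ ∈ 𝓝 (1 : V →L[K] V) := by
    have := (hasStrictFDerivAt_exp_zero (𝕂 := K) (𝔸 := V →L[K] V)).map_nhds_eq_of_surj
      (LinearMap.range_eq_top.2 Function.surjective_id)
    rw [exp_zero] at this
    rw [← this]
    exact image_mem_map (Metric.ball_mem_nhds _ hδ)
  obtain ⟨i, ⟨E, hE, hi⟩, hv⟩ := ((h1.eventually hm).and (h2.eventually
    (Metric.ball_mem_nhds v (lt_min one_pos (half_pos hη))))).exists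
  have hs := hs E (by simpa using hE)
  have hD : IsDer m E := der_of (fun s h => ⟨(hs s h).1.trans e1, (hs s h).2.trans e1⟩) (hi ▸ hk i)
  refine ⟨c i • E z, Submodule.smul_mem _ _ (mem_orb.2 ⟨E, hD, rfl⟩), ?_⟩
  have h3 : ‖c i • (k i z - z) - c i • E z‖ ≤ ε * ‖c i • E z‖ := by
    rw [← smul_sub, norm_smul, norm_smul, ← hi, mul_left_comm]
    exact mul_le_mul_of_nonneg_left (est (fun s h => (hs s h).1) z) (norm_nonneg _)
  simp only [Metric.mem_ball, lt_min_iff, dist_eq_norm] at hv ⊢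
  generalize c i • (k i z - z) = q at *
  generalize c i • E z = e at *
  have a1 := norm_sub_norm_le q v
  have a2 := norm_sub_norm_le e q
  have a3 := norm_sub_le_norm_sub_add_norm_sub v q e
  rw [norm_sub_rev] at a2
  rw [norm_sub_rev v q] at a3
  have a4 : ‖e‖ ≤ 2 * (‖v‖ + 1) := by nlinarith [norm_nonneg e]
  nlinarith

section real
variable [NormedSpace ℝ V] [IsScalarTower ℝ K V]

noncomputable abbrev nalg : NormedAlgebra ℝ (V →L[K] V) :=
  { Algebra.ofModule (R := ℝ) (A := V →L[K] V) (fun r x y => by ext; simp)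
      (fun r x y => by ext; simp) with
    norm_smul_le := norm_smul_le }

attribute [local instance] nalg

omit [FiniteDimensional K V] in
lemma app {W : Type} [NormedAddCommGroup W] [NormedSpace K W] [NormedSpace ℝ W]
    [IsScalarTower ℝ K W] {g : ℝ → V →L[K] W} {u : ℝ → V} {g' : V →L[K] W} {u' : V} {t : ℝ}
    (hg : HasDerivAt g g' t) (hu : HasDerivAt u u' t) :
    HasDerivAt (fun t => g t (u t)) (g' (u t) + g t u') t :=
  ((ContinuousLinearMap.restrictScalarsL K V W ℝ ℝ).hasFDerivAt.comp_hasDerivAt t hg).clm_apply hu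

lemma dexp (X : V →L[K] V) (x : V) (t : ℝ) :
    HasDerivAt (fun t : ℝ => exp (t • X) x) (X (exp (t • X) x)) t := by
  have : CompleteSpace V := FiniteDimensional.complete K V
  simpa using app (hasDerivAt_exp_smul_const' X t) (hasDerivAt_const t x)

lemma local_flow {T : V →L[K] V} (hT : IsLocDer m T) (y : V) :
    ∀ᶠ t : ℝ in 𝓝 0, ∃ g, IsAut m g ∧ exp (t • T) y = g y := by
  have : CompleteSpace V := FiniteDimensional.complete K V
  obtain ⟨σ, hσ, hσ'⟩ := sect m y
  let D : (V →L[K] V) × (V →L[K] V) → V →L[K] V := fun p =>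
    σ (ContinuousLinearMap.apply K V y (p.2 * T * p.1))
  have hD : ContDiff ℝ 1 D := (σ.restrictScalars ℝ).contDiff.comp
    (((ContinuousLinearMap.apply K V y).restrictScalars ℝ).contDiff.comp (by fun_prop))
  obtain ⟨α, h0, ε, hε, hα⟩ := ContDiffAt.exists_forall_mem_closedBall_exists_eq_forall_mem_Ioo_hasDerivAt₀
    (f := fun p => (p.1 * D p, -(D p * p.2))) (x₀ := (1, 1)) (ContDiff.contDiffAt (by fun_prop)) 0
  have const : ∀ f : ℝ → V, (∀ t ∈ Set.Ioo (0 - ε) (0 + ε), HasDerivAt f 0 t) →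
      ∀ t ∈ Set.Ioo (0 - ε) (0 + ε), f t = f 0 := fun f hf t ht =>
    isOpen_Ioo.is_const_of_deriv_eq_zero isPreconnected_Ioo
      (fun t ht => (hf t ht).differentiableAt.differentiableWithinAt) (fun t ht => (hf t ht).deriv)
      ht ⟨by linarith, by linarith⟩
  have dg : ∀ t ∈ Set.Ioo (0 - ε) (0 + ε), HasDerivAt (fun t => (α t).1) ((α t).1 * D (α t)) t :=
    fun t ht => (hα t ht).fst
  have dh : ∀ u, ∀ t ∈ Set.Ioo (0 - ε) (0 + ε),
      HasDerivAt (fun t => (α t).2 u) (-(D (α t) ((α t).2 u))) t :=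
    fun u t ht => by simpa using app (hα t ht).snd (hasDerivAt_const t u)
  have gh : ∀ t ∈ Set.Ioo (0 - ε) (0 + ε), ∀ u, (α t).1 ((α t).2 u) = u := fun t ht u => by
    simpa [h0] using const (fun t => (α t).1 ((α t).2 u))
      (fun t ht => (app (dg t ht) (dh u t ht)).congr_deriv (by simp)) t ht
  have aut : ∀ t ∈ Set.Ioo (0 - ε) (0 + ε), IsAut m (α t).1 ∧ ∀ u, (α t).2 ((α t).1 u) = u := by
    intro t ht
    have hs : Function.Surjective (α t).1 := fun u => ⟨_, gh t ht u⟩
    have hi : Function.Injective (α t).1 := (LinearMap.injective_iff_surjective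
      (f := (α t).1.toLinearMap)).2 hs
    have hg : ∀ u, (α t).2 ((α t).1 u) = u := fun u => hi (gh t ht _)
    refine ⟨⟨⟨hi, hs⟩, fun a b => ?_⟩, hg⟩
    have := const (fun s => (α s).1 (m ((α s).2 ((α t).1 a)) ((α s).2 ((α t).1 b))))
      (fun s hs => (app (dg s hs) (app (app (hasDerivAt_const s m) (dh _ s hs))
        (dh _ s hs))).congr_deriv (by simp [D, hσ _ _ _]; abel)) t ht
    simpa [h0, hg] using this
  filter_upwards [Ioo_mem_nhds (show 0 - ε < 0 by linarith) (show 0 < 0 + ε by linarith)] with t ht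
  refine ⟨_, (aut t ht).1, ?_⟩
  have := const (fun t => exp (t • -T) ((α t).1 y)) (fun t ht => by
    refine (app (hasDerivAt_exp_smul_const (-T) t) (app (dg t ht)
      (hasDerivAt_const t y))).congr_deriv ?_
    obtain ⟨h, hh, h1, h2⟩ := (aut t ht).1.inv
    have e : ∀ u, (α t).2 u = h u := fun u => by rw [← h1 u, (aut t ht).2, h2]
    have : (α t).2 (T ((α t).1 y)) ∈ orb m y := by
      simpa [e, h2] using hh.orb (mem_orb.2 (hT ((α t).1 y)))
    simp [D, hσ' _ this, gh t ht]) t ht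
  simp only [h0, zero_smul, exp_zero, ContinuousLinearMap.one_apply] at this
  nth_rw 1 [← this]
  rw [← ContinuousLinearMap.mul_apply, ← exp_add' (by simp), smul_neg, add_neg_cancel, exp_zero]
  rfl

lemma dirA {T : V →L[K] V} (hT : IsLocDer m T) (t : ℝ) : IsLocAut m (exp (t • T)) := by
  intro x
  have : IsLocallyConstant fun t : ℝ => ∃ g, IsAut m g ∧ exp (t • T) x = g x := by
    refine (IsLocallyConstant.iff_eventually_eq _).2 fun s => ?_
    have h : Tendsto (fun t : ℝ => t - s) (𝓝 s) (𝓝 0) := tendsto_sub_nhds_zero_iff.2 tendsto_id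
    filter_upwards [h.eventually (local_flow hT (exp (s • T) x))] with t ⟨g, hg, e⟩
    rw [← ContinuousLinearMap.mul_apply, ← exp_add' (by simp [Commute.smul_left,
      Commute.smul_right]), ← add_smul, sub_add_cancel] at e
    obtain ⟨h, hh, h1, h2⟩ := hg.inv
    exact propext ⟨fun ⟨k, hk, e'⟩ => ⟨_, hh.mul hk, by simp [← e', e, h2]⟩,
      fun ⟨k, hk, e'⟩ => ⟨_, hg.mul hk, by simp [← e', e]⟩⟩
  exact (this.apply_eq_of_preconnectedSpace t 0).mpr ⟨1, ⟨Function.bijective_id, fun _ _ => rfl⟩,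
    by simp⟩

lemma dirB {X : V →L[K] V} (hX : ∀ t : ℝ, IsLocAut m (exp (t • X))) : IsLocDer m X := by
  intro x
  have : ProperSpace (V →L[K] V) := FiniteDimensional.proper_rclike K _
  choose g hg e using fun t => hX t x
  let S : Set ℝ := {t | X (exp (t • X) x) ∉ orb m (exp (t • X) x)}
  have hS : S.Countable := by
    obtain ⟨A, -, hA, hc⟩ := TopologicalSpace.countable_cover_nhdsWithin
      (s := (fun t => (t, g t)) '' S) (f := fun p => {p}) (by
        rintro _ ⟨t, ht, rfl⟩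
        by_contra hn
        have : (𝓝[≠] t ⊓ comap g (𝓝 (g t))).NeBot := by
          refine ⟨fun hb => hn ?_⟩
          obtain ⟨U, hU, W, ⟨W', hW, hW'⟩, hUW⟩ := inf_eq_bot_iff.1 hb
          obtain ⟨U', hU', hU''⟩ := mem_nhdsWithin_iff_exists_mem_nhds_inter.1 hU
          refine mem_nhdsWithin_iff_exists_mem_nhds_inter.2 ⟨U' ×ˢ W', prod_mem_nhds hU' hW, ?_⟩
          rintro _ ⟨⟨h1, h2⟩, s, -, rfl⟩
          by_contra hs
          have : s ∈ U ∩ W := ⟨hU'' ⟨h1, fun h => hs (by rw [Set.mem_singleton_iff.1 h]; rfl)⟩, hW' h2⟩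
          simp [hUW] at this
        obtain ⟨h, hh, h1, h2⟩ := (hg t).inv
        refine ht (tangent (l := 𝓝[≠] t ⊓ comap g (𝓝 (g t))) (k := fun s => g s * h)
          (c := fun s => (((s - t)⁻¹ : ℝ) : K)) (fun s => (hg s).mul hh) ?_ ?_)
        · have : g t * h = 1 := ContinuousLinearMap.ext h1
          exact this ▸ (tendsto_comap.mono_left inf_le_right).mul_const h
        · refine ((hasDerivAt_iff_tendsto_slope.1 (dexp X x t)).mono_left inf_le_left).congr
            fun s => ?_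
          rw [slope_def_module, RCLike.real_smul_eq_coe_smul (K := K)]
          simp [e, h2])
    refine (hA.image Prod.fst).mono fun t ht => ?_
    obtain ⟨p, hp, h⟩ := Set.mem_iUnion₂.1 (hc ⟨t, ht, rfl⟩)
    exact ⟨p, hp, by rw [← Set.mem_singleton_iff.1 h]⟩
  by_contra hn
  rw [← mem_orb] at hn
  obtain ⟨σ, hσ, hσ'⟩ := sect m x
  let b := Module.finBasis K (orb m x)
  let f : V → Option (Fin (Module.finrank K (orb m x))) → V := fun y o =>
    o.elim (X y) fun i => σ (b i) y
  have hf : Continuous f := continuous_pi fun o => by cases o <;> simp only [f, Option.elim] <;> fun_prop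
  have li : LinearIndependent K (f x) := by
    have e : f x ∘ some = (orb m x).subtype ∘ b := funext fun i => hσ' _ (b i).2
    rw [linearIndependent_option, e]
    refine ⟨b.linearIndependent.map' _ (orb m x).ker_subtype, fun h => hn ?_⟩
    exact (Submodule.span_le.2 (by rintro _ ⟨i, rfl⟩; exact (b i).2) : _ ≤ orb m x) h
  have hc : Tendsto (fun t : ℝ => f (exp (t • X) x)) (𝓝 0) (𝓝 (f x)) := by
    simpa [Function.comp_def] using (hf.tendsto _).comp (dexp X x 0).continuousAt.tendsto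
  obtain ⟨t, ht, hl⟩ := (hS.dense_compl ℝ).inter_nhds_nonempty (hc.eventually li.eventually)
  have hm : ∀ o, f (exp (t • X) x) o ∈ orb m (exp (t • X) x) := fun o => by
    cases o
    · exact not_not.1 ht
    · exact mem_orb.2 ⟨_, hσ _, rfl⟩
  have h1 := (LinearIndependent.of_comp (orb m (exp (t • X) x)).subtype
    (v := fun o => ⟨_, hm o⟩) (show LinearIndependent K (f (exp (t • X) x)) from hl)).fintype_card_le_finrank
  have h2 := (hg t).rank x
  rw [← e] at h2
  simp only [Fintype.card_option, Fintype.card_fin] at h1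
  omega

end real

end defs

theorem result (K V : Type) [RCLike K] [NormedAddCommGroup V] [NormedSpace K V]
    [FiniteDimensional K V] (m : V → V → V) (hm : Bil K m) (X : V →L[K] V) :
    (∀ t : ℝ, LocAut K m (flow X t)) ↔ LocDer K m X := by
  let _ : NormedSpace ℝ V := NormedSpace.restrictScalars ℝ K V
  have : IsScalarTower ℝ K V := IsScalarTower.restrictScalars ℝ K V
  let M : V →L[K] V →L[K] V := (LinearMap.mk₂ K m (fun a b c => (hm.2 c).map_add a b)
    (fun c a b => (hm.2 b).map_smul c a) (fun a => (hm.1 a).map_add)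
    (fun c a => (hm.1 a).map_smul c)).toContinuousBilinearMap
  have h1 : ∀ T : V →L[K] V, LocAut K m T ↔ IsLocAut M T := fun T => forall_congr' fun x =>
    ⟨fun ⟨g, h1, h2⟩ => ⟨LinearMap.toContinuousLinearMap (h1.mk' g), h2⟩,
      fun ⟨g, h⟩ => ⟨g, g.toLinearMap.isLinear, h⟩⟩
  have h2 : ∀ T : V →L[K] V, LocDer K m T ↔ IsLocDer M T := fun T => forall_congr' fun x =>
    ⟨fun ⟨g, h1, h2⟩ => ⟨LinearMap.toContinuousLinearMap (h1.mk' g), h2⟩,
      fun ⟨g, h⟩ => ⟨g, g.toLinearMap.isLinear, h⟩⟩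
  simp only [h1, h2, flow, ← RCLike.real_smul_eq_coe_smul]
  exact ⟨dirB, dirA⟩

end Pool.Agent.Results.MP_9b03f8_al.LieLocAut
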